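import Mathlib

/-!
Abstract version of the exchange / rotation relations (MP_fe58d8_pr, TA jobs P and U).
-/

namespace Pool.Agent.H38.TA

open Equiv

variable {K : Type*} [Field K]

/-- the weight `1 - b + a b` -/
def D (a b : K) : K := 1 - b + a * b

/-- `∏_{i < j} D (a i) (a j)` -/
def Delta {L : ℕ} (a : Fin L → K) : K := ∏ i, ∏ j ∈ Finset.Ioi i, D (a i) (a j)

theorem D_add_sub (a b : K) : D b a + (a - b) = D a b := by unfold D; ring

theorem Delta_eq {L : ℕ} (a : Fin L → K) :
    Delta a = ∏ x ∈ Finset.univ.filter (fun x : Fin L × Fin L => x.1 < x.2), D (a x.1) (a x.2) := by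
  unfold Delta
  rw [Finset.prod_filter, Fintype.prod_prod_type]
  refine Finset.prod_congr rfl fun i _ => ?_
  rw [← Finset.prod_filter]
  refine Finset.prod_congr ?_ fun _ _ => rfl
  ext j
  simp

/-- behaviour of `Delta` under an adjacent transposition -/
theorem Delta_swap {L : ℕ} (a : Fin L → K) (i j : Fin L) (hij : (i : ℕ) + 1 = j) :
    D (a i) (a j) * Delta (a ∘ swap i j) = D (a j) (a i) * Delta a := by
  classical
  set F := Finset.univ.filter (fun x : Fin L × Fin L => x.1 < x.2) with hF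
  have hijlt : i < j := by rw [Fin.lt_def]; omega
  have hmem : (i, j) ∈ F := by simp [hF, hijlt]
  have hne : i ≠ j := hijlt.ne
  have h1 : Delta (a ∘ swap i j) = D (a j) (a i) *
      ∏ x ∈ F.erase (i, j), D (a (swap i j x.1)) (a (swap i j x.2)) := by
    rw [Delta_eq, ← Finset.mul_prod_erase F _ hmem]
    simp
  have h2 : Delta a = D (a i) (a j) * ∏ x ∈ F.erase (i, j), D (a x.1) (a x.2) := by
    rw [Delta_eq, ← Finset.mul_prod_erase F _ hmem]
  have hlt : ∀ x y : Fin L, x < y → (x, y) ≠ (i, j) → swap i j x < swap i j y := by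
    intro x y hxy hne'
    have hxy' : (x : ℕ) < y := hxy
    have hcases : ∀ z : Fin L, (z = i ∧ swap i j z = j) ∨ (z = j ∧ swap i j z = i) ∨
        (z ≠ i ∧ z ≠ j ∧ swap i j z = z) := by
      intro z
      by_cases hzi : z = i
      · left; exact ⟨hzi, by rw [hzi, swap_apply_left]⟩
      · by_cases hzj : z = j
        · right; left; exact ⟨hzj, by rw [hzj, swap_apply_right]⟩
        · right; right; exact ⟨hzi, hzj, swap_apply_of_ne_of_ne hzi hzj⟩
    have hv : ∀ z : Fin L, z ≠ i → z ≠ j → (z : ℕ) ≠ i ∧ (z : ℕ) ≠ j := fun z h1 h2 =>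
      ⟨fun h => h1 (Fin.ext h), fun h => h2 (Fin.ext h)⟩
    rcases hcases x with ⟨hx, hx'⟩ | ⟨hx, hx'⟩ | ⟨hx1, hx2, hx'⟩ <;>
    rcases hcases y with ⟨hy, hy'⟩ | ⟨hy, hy'⟩ | ⟨hy1, hy2, hy'⟩ <;>
    rw [hx', hy', Fin.lt_def]
    · subst hx; subst hy; omega
    · exact absurd (by rw [hx, hy]) hne'
    · obtain ⟨h1, h2⟩ := hv y hy1 hy2
      subst hx; omega
    · subst hx; subst hy; omega
    · subst hx; subst hy; omega
    · obtain ⟨h1, h2⟩ := hv y hy1 hy2
      subst hx; omega
    · obtain ⟨h1, h2⟩ := hv x hx1 hx2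
      subst hy; omega
    · obtain ⟨h1, h2⟩ := hv x hx1 hx2
      subst hy; omega
    · exact hxy'
  have h3 : ∏ x ∈ F.erase (i, j), D (a (swap i j x.1)) (a (swap i j x.2)) =
      ∏ x ∈ F.erase (i, j), D (a x.1) (a x.2) := by
    refine Finset.prod_bij (fun x _ => (swap i j x.1, swap i j x.2)) ?_ ?_ ?_ ?_
    · rintro ⟨x, y⟩ hx
      rw [Finset.mem_erase] at hx ⊢
      obtain ⟨hx1, hx2⟩ := hx
      have hxy : x < y := by simpa [hF] using hx2
      have h4 := hlt x y hxy hx1
      refine ⟨?_, by simpa [hF] using h4⟩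
      intro h5
      rw [Prod.mk.injEq] at h5
      have h6 : x = j := by
        have := congrArg (swap i j) h5.1
        simpa using this
      have h7 : y = i := by
        have := congrArg (swap i j) h5.2
        simpa using this
      rw [h6, h7] at hxy
      exact absurd hxy (not_lt.mpr hijlt.le)
    · rintro ⟨x, y⟩ _ ⟨x', y'⟩ _ h
      rw [Prod.mk.injEq] at h
      have h1 := (swap i j).injective h.1
      have h2 := (swap i j).injective h.2
      exact Prod.ext h1 h2
    · rintro ⟨x, y⟩ hx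
      rw [Finset.mem_erase] at hx
      obtain ⟨hx1, hx2⟩ := hx
      have hxy : x < y := by simpa [hF] using hx2
      refine ⟨(swap i j x, swap i j y), ?_, by simp⟩
      rw [Finset.mem_erase]
      have h4 := hlt x y hxy hx1
      refine ⟨?_, by simpa [hF] using h4⟩
      intro h5
      rw [Prod.mk.injEq] at h5
      have h6 : x = j := by
        have := congrArg (swap i j) h5.1
        simpa using this
      have h7 : y = i := by
        have := congrArg (swap i j) h5.2
        simpa using this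
      rw [h6, h7] at hxy
      exact absurd hxy (not_lt.mpr hijlt.le)
    · rintro ⟨x, y⟩ _
      rfl
  rw [h1, h2, h3]
  ring

section General

variable {L : ℕ} {P : Type*} [Fintype P] [DecidableEq P]

/-- exchange relation on a set `G` of tuples -/
def EXg (e : ℤ → P → P) (G : Set (Fin L → K)) (X : (Fin L → K) → P → K) : Prop :=
  ∀ a ∈ G, ∀ (i : ℕ) (hi : i + 1 < L) (α : P),
    D (a ⟨i, by omega⟩) (a ⟨i + 1, hi⟩) *
        X (a ∘ swap ⟨i, by omega⟩ ⟨i + 1, hi⟩) α =
      D (a ⟨i + 1, hi⟩) (a ⟨i, by omega⟩) * X a α +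
        (a ⟨i, by omega⟩ - a ⟨i + 1, hi⟩) * ∑ π with e (i : ℤ) π = α, X a π

/-- rotation relation on a set `G` of tuples -/
def ROTg (rot : P → P) (G : Set (Fin L → K)) (X : (Fin L → K) → P → K) : Prop :=
  ∀ a ∈ G, ∀ π : P, X (a ∘ finRotate L) (rot π) = X a π

/-- `G` is stable under permutation of the entries -/
def Stable (G : Set (Fin L → K)) : Prop := ∀ a ∈ G, ∀ σ : Perm (Fin L), a ∘ σ ∈ G

/-- cyclic exchange relation -/
theorem cyc (hL : 2 ≤ L) (e : ℤ → P → P) (rot : P → P)
    (hrot : ∀ (i : ℤ) π, rot (e (i + 1) π) = e i (rot π)) (hinj : Function.Bijective rot)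
    (G : Set (Fin L → K)) (hG : Stable G) (X : (Fin L → K) → P → K)
    (hEX : EXg e G X) (hROT : ROTg rot G X) (a : Fin L → K) (ha : a ∈ G) (i : Fin L) (α : P) :
    D (a i) (a (finRotate L i)) * X (a ∘ swap i (finRotate L i)) α =
      D (a (finRotate L i)) (a i) * X a α +
        (a i - a (finRotate L i)) * ∑ π with e ((i : ℕ) : ℤ) π = α, X a π := by
  classical
  obtain ⟨m, rfl⟩ : ∃ m, L = m + 1 := ⟨L - 1, by omega⟩
  by_cases hi : (i : ℕ) < m
  · have h1 : finRotate (m + 1) i = ⟨(i : ℕ) + 1, by omega⟩ := by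
      have := finRotate_of_lt hi
      simpa using this
    have h2 := hEX a ha (i : ℕ) (by omega) α
    rw [h1]
    exact h2
  · obtain rfl : i = Fin.last m := Fin.ext (by have := i.2; simp only [Fin.val_last]; omega)
    have hrl : finRotate (m + 1) (Fin.last m) = 0 := finRotate_last
    have hm : m - 1 < m + 1 := by omega
    have hrm : finRotate (m + 1) ⟨m - 1, hm⟩ = Fin.last m := by
      have := finRotate_of_lt (n := m) (k := m - 1) (by omega)
      rw [this]
      apply Fin.ext
      simp only [Fin.val_last]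
      omega
    have hb : a ∘ finRotate (m + 1) ∈ G := hG a ha _
    have hm1 : (⟨m - 1 + 1, by omega⟩ : Fin (m + 1)) = Fin.last m := by
      apply Fin.ext
      simp only [Fin.val_last]
      omega
    have h2 := hEX _ hb (m - 1) (by omega) (rot α)
    rw [hm1] at h2
    have hcomp : (a ∘ finRotate (m + 1)) ∘ swap (⟨m - 1, hm⟩ : Fin (m + 1)) (Fin.last m) =
        (a ∘ swap (Fin.last m) 0) ∘ finRotate (m + 1) := by
      funext x
      simp only [Function.comp_apply]
      congr 1
      have h3 := mul_swap_eq_swap_mul (finRotate (m + 1)) (⟨m - 1, hm⟩ : Fin (m + 1)) (Fin.last m)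
      have h4 := DFunLike.congr_fun h3 x
      simp only [Perm.mul_apply] at h4
      rw [h4, hrm, hrl]
    rw [hcomp, hROT _ (hG a ha _)] at h2
    simp only [Function.comp_apply, hrm, hrl] at h2
    rw [hROT a ha] at h2
    rw [hrl, h2]
    congr 2
    have hmz : ((m - 1 : ℕ) : ℤ) + 1 = ((Fin.last m : Fin (m + 1)) : ℕ) := by
      rw [Fin.val_last]
      omega
    refine (Finset.sum_bij (fun π _ => rot π) ?_ ?_ ?_ ?_).symm
    · intro π hπ
      rw [Finset.mem_filter] at hπ ⊢
      refine ⟨Finset.mem_univ _, ?_⟩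
      rw [← hrot, hmz, hπ.2]
    · intro π _ π' _ h
      exact hinj.1 h
    · intro π hπ
      rw [Finset.mem_filter] at hπ
      obtain ⟨π', rfl⟩ := hinj.2 π
      refine ⟨π', ?_, rfl⟩
      rw [Finset.mem_filter]
      refine ⟨Finset.mem_univ _, ?_⟩
      apply hinj.1
      rw [← hmz, hrot, hπ.2]
    · intro π _
      exact (hROT a ha π).symm

/-- the ratio `X a chi / Delta a` is invariant under permutations -/
theorem ratio (e : ℤ → P → P) (chi : P)
    (hchi : ∀ i : ℕ, i + 1 < L → ∀ π, e i π ≠ chi)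
    (G : Set (Fin L → K)) (hG : Stable G) (hD : ∀ a ∈ G, ∀ i j : Fin L, i ≠ j → D (a i) (a j) ≠ 0)
    (X : (Fin L → K) → P → K) (hEX : EXg e G X) (σ : Perm (Fin L)) :
    ∀ a ∈ G, X (a ∘ σ) chi * Delta a = Delta (a ∘ σ) * X a chi := by
  classical
  have hDel : ∀ a ∈ G, Delta a ≠ 0 := by
    intro a ha
    unfold Delta
    refine Finset.prod_ne_zero_iff.mpr fun i _ => Finset.prod_ne_zero_iff.mpr fun j hj => ?_
    exact hD a ha i j (Finset.mem_Ioi.mp hj).ne
  rcases L with _ | m
  · intro a ha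
    have : a ∘ σ = a := by funext x; exact x.elim0
    rw [this, mul_comm]
  have hgen : σ ∈ Submonoid.closure (Set.range fun i : Fin m ↦ swap i.castSucc i.succ) := by
    rw [Perm.mclosure_swap_castSucc_succ]
    exact Submonoid.mem_top _
  induction hgen using Submonoid.closure_induction with
  | mem τ hτ =>
    obtain ⟨i, rfl⟩ := hτ
    intro a ha
    have h1 := hEX a ha (i : ℕ) (by omega) chi
    have h2 : ∑ π with e ((i : ℕ) : ℤ) π = chi, X a π = 0 := by
      apply Finset.sum_eq_zero
      intro π hπ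
      rw [Finset.mem_filter] at hπ
      exact absurd hπ.2 (hchi i (by omega) π)
    rw [h2, mul_zero, add_zero] at h1
    have h3 := Delta_swap a i.castSucc i.succ (by simp)
    have e1 : (⟨(i : ℕ), by omega⟩ : Fin (m + 1)) = i.castSucc := rfl
    have e2 : (⟨(i : ℕ) + 1, by omega⟩ : Fin (m + 1)) = i.succ := rfl
    rw [e1, e2] at h1
    have hne : i.castSucc ≠ i.succ := (Fin.castSucc_lt_succ).ne
    have h4 := hD a ha _ _ hne
    apply mul_left_cancel₀ h4
    calc D (a i.castSucc) (a i.succ) * (X (a ∘ swap i.castSucc i.succ) chi * Delta a)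
        = (D (a i.castSucc) (a i.succ) * X (a ∘ swap i.castSucc i.succ) chi) * Delta a := by ring
      _ = (D (a i.succ) (a i.castSucc) * Delta a) * X a chi := by rw [h1]; ring
      _ = _ := by rw [← h3]; ring
  | one =>
    intro a ha
    have : a ∘ (1 : Perm (Fin (m + 1))) = a := by funext x; simp
    rw [this, mul_comm]
  | mul τ τ' _ _ h1 h2 =>
    intro a ha
    have h3 := h1 a ha
    have h4 := h2 (a ∘ τ) (hG a ha τ)
    have e1 : a ∘ (τ * τ' : Perm (Fin (m + 1))) = (a ∘ τ) ∘ τ' := by funext x; simp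
    rw [e1]
    apply mul_left_cancel₀ (hDel _ (hG a ha τ))
    calc Delta (a ∘ τ) * (X ((a ∘ τ) ∘ τ') chi * Delta a)
        = (X ((a ∘ τ) ∘ τ') chi * Delta (a ∘ τ)) * Delta a := by ring
      _ = Delta ((a ∘ τ) ∘ τ') * (X (a ∘ τ) chi * Delta a) := by rw [h4]; ring
      _ = _ := by rw [h3]; ring

/-- iterated rotation relation -/
theorem rot_iter_rel (rot : P → P) (G : Set (Fin L → K)) (hG : Stable G)
    (X : (Fin L → K) → P → K) (hROT : ROTg rot G X) (k : ℕ) :
    ∀ a ∈ G, ∀ π, X (a ∘ (finRotate L ^ k : Perm (Fin L))) (rot^[k] π) = X a π := by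
  induction k with
  | zero =>
    intro a _ π
    have : a ∘ (finRotate L ^ 0 : Perm (Fin L)) = a := by funext x; simp
    rw [this]
    rfl
  | succ k ih =>
    intro a ha π
    have : a ∘ (finRotate L ^ (k + 1) : Perm (Fin L)) =
        (a ∘ (finRotate L ^ k : Perm (Fin L))) ∘ finRotate L := by
      funext x
      simp [pow_succ]
    rw [this, Function.iterate_succ_apply', hROT _ (hG a ha _), ih a ha]

end General

end Pool.Agent.H38.TA
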