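import Mathlib
import Pool.Agent.H38.TA.Abs

/-!
Polynomiality of the solution of the exchange / rotation relations (MP_fe58d8_pr, TA job P),
abstract version.
-/

namespace Pool.Agent.H38.TA

open Equiv MvPolynomial

section Polys

variable {L : ℕ}

/-- the polynomial `1 - X_j + X_i X_j` -/
noncomputable def DP (i j : Fin L) : MvPolynomial (Fin L) ℝ := 1 - X j + X i * X j

/-- the polynomial `Delta` -/
noncomputable def DeltaP (L : ℕ) : MvPolynomial (Fin L) ℝ :=
  ∏ x ∈ Finset.univ.filter (fun x : Fin L × Fin L => x.1 < x.2), DP x.1 x.2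

theorem eval_DP (a : Fin L → ℝ) (i j : Fin L) : eval a (DP i j) = D (a i) (a j) := by
  simp [DP, D]

theorem aeval_DP (a : Fin L → ℂ) (i j : Fin L) : aeval a (DP i j) = D (a i) (a j) := by
  simp [DP, D]

theorem eval_DeltaP (a : Fin L → ℝ) : eval a (DeltaP L) = Delta a := by
  rw [DeltaP, map_prod, Delta_eq]
  exact Finset.prod_congr rfl fun x _ => eval_DP a _ _

theorem degreeOf_DP (i j k : Fin L) (hij : i ≠ j) :
    degreeOf k (DP i j) ≤ if k = i ∨ k = j then 1 else 0 := by
  classical
  have h1 : degreeOf k (DP i j) ≤ max (degreeOf k (1 - X j : MvPolynomial (Fin L) ℝ))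
      (degreeOf k (X i * X j : MvPolynomial (Fin L) ℝ)) := degreeOf_add_le _ _ _
  have h2 : degreeOf k (1 - X j : MvPolynomial (Fin L) ℝ) ≤
      max (degreeOf k (1 : MvPolynomial (Fin L) ℝ)) (degreeOf k (X j : MvPolynomial (Fin L) ℝ)) :=
    degreeOf_sub_le _ _ _
  have h3 : degreeOf k (1 : MvPolynomial (Fin L) ℝ) = 0 := by
    rw [← C_1, degreeOf_C]
  have h4 : degreeOf k (X i * X j : MvPolynomial (Fin L) ℝ) ≤
      degreeOf k (X i : MvPolynomial (Fin L) ℝ) + degreeOf k (X j : MvPolynomial (Fin L) ℝ) :=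
    degreeOf_mul_le _ _ _
  rw [h3] at h2
  simp only [degreeOf_X] at h2 h4
  by_cases hki : k = i
  · subst hki
    have hkj : ¬ k = j := hij
    simp only [hkj, if_false, if_true] at h2 h4
    simp only [true_or, if_true]
    omega
  · by_cases hkj : k = j
    · subst hkj
      simp only [hki, if_false, if_true] at h2 h4
      simp only [or_true, if_true]
      omega
    · simp only [hki, hkj, if_false] at h2 h4
      simp only [hki, hkj, or_self, if_false]
      omega

theorem degreeOf_DeltaP (k : Fin L) : degreeOf k (DeltaP L) ≤ L - 1 := by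
  classical
  set F := Finset.univ.filter (fun x : Fin L × Fin L => x.1 < x.2) with hF
  have h1 : degreeOf k (DeltaP L) ≤ ∑ x ∈ F, degreeOf k (DP x.1 x.2) :=
    degreeOf_prod_le _ _ _
  have h2 : ∑ x ∈ F, degreeOf k (DP x.1 x.2) ≤
      ∑ x ∈ F, (if k = x.1 ∨ k = x.2 then 1 else 0) := by
    refine Finset.sum_le_sum fun x hx => degreeOf_DP _ _ _ ?_
    have : x.1 < x.2 := by simpa [hF] using hx
    exact this.ne
  have h3 : ∑ x ∈ F, (if k = x.1 ∨ k = x.2 then 1 else 0) =
      (F.filter (fun x => k = x.1 ∨ k = x.2)).card := by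
    rw [Finset.card_filter]
  have h4 : (F.filter (fun x => k = x.1 ∨ k = x.2)).card ≤ (Finset.univ.erase k).card := by
    refine Finset.card_le_card_of_injOn (fun x => if k = x.1 then x.2 else x.1) ?_ ?_
    · intro x hx
      rw [Finset.mem_coe, Finset.mem_filter, hF, Finset.mem_filter] at hx
      obtain ⟨⟨_, hlt⟩, _⟩ := hx
      rw [Finset.mem_coe, Finset.mem_erase]
      refine ⟨?_, Finset.mem_univ _⟩
      by_cases h : k = x.1
      · simp only [h, if_true]
        exact hlt.ne'
      · simp only [h, if_false]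
        exact fun h' => h h'.symm
    · intro x hx y hy hxy
      rw [Finset.mem_coe, Finset.mem_filter, hF, Finset.mem_filter] at hx hy
      obtain ⟨⟨_, hxlt⟩, hxk⟩ := hx
      obtain ⟨⟨_, hylt⟩, hyk⟩ := hy
      simp only at hxy
      by_cases h : k = x.1
      · by_cases h' : k = y.1
        · rw [if_pos h, if_pos h'] at hxy
          exact Prod.ext (h.symm.trans h') hxy
        · rw [if_pos h, if_neg h'] at hxy
          have h2 : k = y.2 := hyk.resolve_left h'
          rw [← h2, h, ← hxy] at hylt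
          exact absurd (hxlt.trans hylt) (lt_irrefl _)
      · have h2 : k = x.2 := hxk.resolve_left h
        by_cases h' : k = y.1
        · rw [if_neg h, if_pos h'] at hxy
          rw [← h2, h', hxy] at hxlt
          exact absurd (hxlt.trans hylt) (lt_irrefl _)
        · rw [if_neg h, if_neg h'] at hxy
          have h3 : k = y.2 := hyk.resolve_left h'
          exact Prod.ext hxy (h2.symm.trans h3)
  have h5 : (Finset.univ.erase k).card = L - 1 := by
    rw [Finset.card_erase_of_mem (Finset.mem_univ _), Finset.card_univ, Fintype.card_fin]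
  omega

theorem X_sub_X_ne {i j : Fin L} (h : i ≠ j) : (X i - X j : MvPolynomial (Fin L) ℝ) ≠ 0 := by
  intro h'
  exact h (X_injective (sub_eq_zero.mp h'))

theorem dvd_swap (i j : Fin L) (f : MvPolynomial (Fin L) ℝ) :
    (X i - X j : MvPolynomial (Fin L) ℝ) ∣ rename (swap i j) f - f := by
  induction f using MvPolynomial.induction_on with
  | C a => simp
  | add p q hp hq =>
    have : rename (swap i j) (p + q) - (p + q) =
        (rename (swap i j) p - p) + (rename (swap i j) q - q) := by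
      rw [map_add]; ring
    rw [this]
    exact dvd_add hp hq
  | mul_X p n hp =>
    have : rename (swap i j) (p * X n) - p * X n =
        (rename (swap i j) p - p) * X (swap i j n) + p * (X (swap i j n) - X n) := by
      rw [map_mul, rename_X]; ring
    rw [this]
    refine dvd_add (hp.mul_right _) (Dvd.dvd.mul_left ?_ _)
    by_cases hi : n = i
    · subst hi
      rw [swap_apply_left]
      exact ⟨-1, by ring⟩
    · by_cases hj : n = j
      · subst hj
        rw [swap_apply_right]
      · rw [swap_apply_of_ne_of_ne hi hj, sub_self]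
        exact dvd_zero _

theorem exists_quot {d : ℕ} (i j : Fin L) (hij : i ≠ j)
    (f : MvPolynomial (Fin L) ℝ) (hf : ∀ k, degreeOf k f ≤ d) :
    ∃ g : MvPolynomial (Fin L) ℝ, rename (swap i j) f - f = (X i - X j) * g ∧
      ∀ k, degreeOf k (DP i j * g) ≤ d := by
  classical
  obtain ⟨g, hg⟩ := dvd_swap i j f
  refine ⟨g, hg, fun k => ?_⟩
  by_cases hg0 : g = 0
  · rw [hg0, mul_zero, degreeOf_zero]
    exact Nat.zero_le _
  have h1 : ∀ k, degreeOf k (rename (swap i j) f - f) ≤ d := by
    intro k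
    refine (degreeOf_sub_le _ _ _).trans (max_le ?_ (hf k))
    have h2 := degreeOf_rename_of_injective (p := f) (swap i j).injective (swap i j k)
    rw [swap_apply_self] at h2
    rw [h2]
    exact hf _
  have h2 : ∀ k, degreeOf k (X i - X j : MvPolynomial (Fin L) ℝ) + degreeOf k g ≤ d := by
    intro k
    rw [← degreeOf_mul_eq (X_sub_X_ne hij) hg0, ← hg]
    exact h1 k
  have h3 : degreeOf k (DP i j * g) ≤ degreeOf k (DP i j) + degreeOf k g := degreeOf_mul_le _ _ _
  have h4 := degreeOf_DP i j k hij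
  have h5 := h2 k
  by_cases hk : k = i ∨ k = j
  · rw [if_pos hk] at h4
    have h6 : 1 ≤ degreeOf k (X i - X j : MvPolynomial (Fin L) ℝ) := by
      rcases hk with rfl | rfl
      · have h7 : (X k : MvPolynomial (Fin L) ℝ) = (X k - X j) + X j := by ring
        have h8 : degreeOf k (X k : MvPolynomial (Fin L) ℝ) ≤
            max (degreeOf k (X k - X j : MvPolynomial (Fin L) ℝ))
              (degreeOf k (X j : MvPolynomial (Fin L) ℝ)) := by
          conv_lhs => rw [h7]
          exact degreeOf_add_le _ _ _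
        simp only [degreeOf_X, if_true, hij, if_false] at h8
        omega
      · have h7 : (X k : MvPolynomial (Fin L) ℝ) = X i - (X i - X k) := by ring
        have h8 : degreeOf k (X k : MvPolynomial (Fin L) ℝ) ≤
            max (degreeOf k (X i : MvPolynomial (Fin L) ℝ))
              (degreeOf k (X i - X k : MvPolynomial (Fin L) ℝ)) := by
          conv_lhs => rw [h7]
          exact degreeOf_sub_le _ _ _
        simp only [degreeOf_X, if_true, hij.symm, if_false] at h8
        omega
    omega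
  · rw [if_neg hk] at h4
    omega

/-- a polynomial vanishing at all injective points of the open cube vanishes -/
theorem eq_zero_of_cube (F : MvPolynomial (Fin L) ℝ)
    (h : ∀ a : Fin L → ℝ, Function.Injective a → (∀ i, a i ∈ Set.Ioo (0 : ℝ) 1) → eval a F = 0) :
    F = 0 := by
  classical
  set V : MvPolynomial (Fin L) ℝ :=
    ∏ x ∈ Finset.univ.filter (fun x : Fin L × Fin L => x.1 < x.2), (X x.1 - X x.2) with hV
  have hV0 : V ≠ 0 := by
    refine Finset.prod_ne_zero_iff.mpr fun x hx => X_sub_X_ne ?_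
    have : x.1 < x.2 := by simpa using hx
    exact this.ne
  have hFV : F * V = 0 := by
    refine funext_set (fun _ => Set.Ioo (0 : ℝ) 1) (fun _ => Set.Ioo_infinite one_pos) ?_
    intro a ha
    rw [map_zero, map_mul]
    by_cases hinj : Function.Injective a
    · rw [h a hinj (fun i => ha i (Set.mem_univ _)), zero_mul]
    · have : ∃ i j : Fin L, i < j ∧ a i = a j := by
        simp only [Function.Injective, not_forall] at hinj
        obtain ⟨i, j, hij, hne⟩ := hinj
        rcases lt_or_gt_of_ne hne with h1 | h1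
        · exact ⟨i, j, h1, hij⟩
        · exact ⟨j, i, h1, hij.symm⟩
      obtain ⟨i, j, hlt, hij⟩ := this
      have hz : eval a V = 0 := by
        rw [hV, map_prod]
        refine Finset.prod_eq_zero (i := (i, j)) (by simpa using hlt) ?_
        simp [hij]
      rw [hz, mul_zero]
  exact (mul_eq_zero.mp hFV).resolve_right hV0

end Polys

/-- the injective tuples with entries in the open unit interval -/
def Cube (L : ℕ) : Set (Fin L → ℝ) := {a | Function.Injective a ∧ ∀ i, a i ∈ Set.Ioo (0 : ℝ) 1}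

theorem cube_stable (L : ℕ) : Stable (Cube L) := by
  intro a ha σ
  exact ⟨ha.1.comp σ.injective, fun i => ha.2 (σ i)⟩

theorem D_pos {x y : ℝ} (hx : x ∈ Set.Ioo (0 : ℝ) 1) (hy : y ∈ Set.Ioo (0 : ℝ) 1) : 0 < D x y := by
  unfold D
  have h1 := hx.1
  have h2 := hy.1
  have h3 := hy.2
  nlinarith [mul_pos h1 h2]

theorem Delta_pos {L : ℕ} {a : Fin L → ℝ} (ha : ∀ i, a i ∈ Set.Ioo (0 : ℝ) 1) : 0 < Delta a := by
  unfold Delta
  exact Finset.prod_pos fun i _ => Finset.prod_pos fun j _ => D_pos (ha i) (ha j)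

section Main

variable {L : ℕ} {P : Type*} [Fintype P] [DecidableEq P]

theorem exists_good (hL : 2 ≤ L) (e : ℤ → P → P) (rot : P → P) (chi : P) (len : P → ℕ)
    (hee : ∀ (i : ℤ) π, e i (e i π) = e i π)
    (hrot : ∀ (i : ℤ) π, rot (e (i + 1) π) = e i (rot π)) (hbij : Function.Bijective rot)
    (hchi : ∀ i : ℕ, i + 1 < L → ∀ π, e i π ≠ chi)
    (htri : ∀ π, (∃ k : ℕ, π = rot^[k] chi) ∨
      ∃ i : Fin L, e ((i : ℕ) : ℤ) π ≠ π ∧
        ∀ γ, e ((i : ℕ) : ℤ) γ = e ((i : ℕ) : ℤ) π → γ ≠ π → len π < len γ)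
    (μ : (Fin L → ℝ) → P → ℝ) (hEX : EXg e (Cube L) μ) (hROT : ROTg rot (Cube L) μ) (π : P) :
    ∃ Q : MvPolynomial (Fin L) ℝ, (∀ k, degreeOf k Q ≤ L - 1) ∧
      ∀ a ∈ Cube L, eval a Q * μ a chi = Delta a * μ a π := by
  classical
  have hst := cube_stable L
  have hD : ∀ a ∈ Cube L, ∀ i j : Fin L, i ≠ j → D (a i) (a j) ≠ 0 := fun a ha i j _ =>
    (D_pos (ha.2 i) (ha.2 j)).ne'
  have hDel : ∀ a ∈ Cube L, Delta a ≠ 0 := fun a ha => (Delta_pos ha.2).ne'
  have hratio := ratio e chi hchi (Cube L) hst hD μ hEX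
  set M := Finset.univ.sup len with hM
  have hle : ∀ γ, len γ ≤ M := fun γ => Finset.le_sup (Finset.mem_univ γ)
  induction h : M - len π using Nat.strong_induction_on generalizing π with
  | _ n ih =>
  rcases htri π with ⟨k, hk⟩ | ⟨i, hne, hmin⟩
  · -- rotation of chi
    set σ : Perm (Fin L) := (finRotate L ^ k)⁻¹ with hσ
    refine ⟨rename σ (DeltaP L), ?_, ?_⟩
    · intro k
      have h2 := degreeOf_rename_of_injective (p := DeltaP L) σ.injective (σ.symm k)
      rw [apply_symm_apply] at h2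
      rw [h2]
      exact degreeOf_DeltaP _
    · intro a ha
      rw [eval_rename, eval_DeltaP]
      have h1 := hratio σ a ha
      have h2 := rot_iter_rel rot (Cube L) hst μ hROT k (a ∘ σ) (hst a ha σ) chi
      have h3 : (a ∘ σ) ∘ (finRotate L ^ k : Perm (Fin L)) = a := by
        funext x
        simp [hσ]
      rw [h3, ← hk] at h2
      rw [h2, ← h1]
      ring
  · set α := e ((i : ℕ) : ℤ) π with hα
    set j := finRotate L i with hj
    have hij : i ≠ j := by
      intro h'
      obtain ⟨m, rfl⟩ : ∃ m, L = m + 2 := ⟨L - 2, by omega⟩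
      rw [hj, finRotate_apply] at h'
      have := congrArg (fun x : Fin (m + 2) => x - i) h'
      simp at this
    have hlenlt : ∀ γ, e ((i : ℕ) : ℤ) γ = α → γ ≠ π → M - len γ < n := by
      intro γ h1 h2
      have h3 := hmin γ h1 h2
      have h4 := hle γ
      omega
    have hIH : ∀ γ, e ((i : ℕ) : ℤ) γ = α → γ ≠ π → ∃ Q : MvPolynomial (Fin L) ℝ,
        (∀ k, degreeOf k Q ≤ L - 1) ∧ ∀ a ∈ Cube L, eval a Q * μ a chi = Delta a * μ a γ :=
      fun γ h1 h2 => ih _ (hlenlt γ h1 h2) γ rfl
    have hαα : e ((i : ℕ) : ℤ) α = α := hee _ _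
    have hαπ : α ≠ π := hne
    obtain ⟨Qα, hQα1, hQα2⟩ := hIH α hαα hαπ
    obtain ⟨g, hg1, hg2⟩ := exists_quot (d := L - 1) i j hij Qα hQα1
    -- the remaining preimages
    set R := (Finset.univ.filter (fun γ => e ((i : ℕ) : ℤ) γ = α)).erase α |>.erase π with hR
    have hRmem : ∀ γ ∈ R, e ((i : ℕ) : ℤ) γ = α ∧ γ ≠ π := by
      intro γ hγ
      rw [hR, Finset.mem_erase, Finset.mem_erase, Finset.mem_filter] at hγ
      exact ⟨hγ.2.2.2, hγ.1⟩
    have hIH' : ∀ γ, ∃ Q : MvPolynomial (Fin L) ℝ, γ ∈ R → ((∀ k, degreeOf k Q ≤ L - 1) ∧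
        ∀ a ∈ Cube L, eval a Q * μ a chi = Delta a * μ a γ) := by
      intro γ
      by_cases hγ : γ ∈ R
      · obtain ⟨Q, hQ⟩ := hIH γ (hRmem γ hγ).1 (hRmem γ hγ).2
        exact ⟨Q, fun _ => hQ⟩
      · exact ⟨0, fun h' => absurd h' hγ⟩
    choose Qf hQf using hIH'
    refine ⟨DP i j * g - ∑ γ ∈ R, Qf γ, ?_, ?_⟩
    · intro k
      refine (degreeOf_sub_le _ _ _).trans (max_le (hg2 k) ?_)
      refine (degreeOf_sum_le _ _ _).trans ?_
      refine Finset.sup_le fun γ hγ => (hQf γ hγ).1 k
    · intro a ha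
      have hcyc := cyc hL e rot hrot hbij (Cube L) hst μ hEX hROT a ha i α
      rw [← hj] at hcyc
      have hsplit : ∑ γ with e ((i : ℕ) : ℤ) γ = α, μ a γ = μ a α + (μ a π + ∑ γ ∈ R, μ a γ) := by
        have hm1 : α ∈ Finset.univ.filter (fun γ => e ((i : ℕ) : ℤ) γ = α) :=
          Finset.mem_filter.mpr ⟨Finset.mem_univ α, hαα⟩
        have hm2 : π ∈ (Finset.univ.filter (fun γ => e ((i : ℕ) : ℤ) γ = α)).erase α :=
          Finset.mem_erase.mpr ⟨hαπ.symm, Finset.mem_filter.mpr ⟨Finset.mem_univ _, rfl⟩⟩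
        rw [← Finset.add_sum_erase _ (fun γ => μ a γ) hm1,
          ← Finset.add_sum_erase _ (fun γ => μ a γ) hm2]
      rw [hsplit] at hcyc
      -- exchange relation at `α`
      have hcyc' : D (a i) (a j) * (μ (a ∘ swap i j) α - μ a α) =
          (a i - a j) * (μ a π + ∑ γ ∈ R, μ a γ) := by
        have := D_add_sub (a i) (a j)
        rw [mul_sub, hcyc, ← this]
        ring
      have has := hst a ha (swap i j)
      have hval : eval (a ∘ swap i j) Qα * μ a chi = Delta a * μ (a ∘ swap i j) α := by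
        have h1 := hQα2 _ has
        have h2 := hratio (swap i j) a ha
        apply mul_left_cancel₀ (hDel _ has)
        calc Delta (a ∘ swap i j) * (eval (a ∘ swap i j) Qα * μ a chi)
            = eval (a ∘ swap i j) Qα * (Delta (a ∘ swap i j) * μ a chi) := by ring
          _ = (eval (a ∘ swap i j) Qα * μ (a ∘ swap i j) chi) * Delta a := by rw [← h2]; ring
          _ = _ := by rw [h1]; ring
      have hg3 : eval (a ∘ swap i j) Qα - eval a Qα = (a i - a j) * eval a g := by
        have := congrArg (eval a) hg1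
        rw [map_sub, eval_rename, map_mul, map_sub, eval_X, eval_X] at this
        exact this
      have hneq : a i - a j ≠ 0 := by
        intro h'
        exact hij (ha.1 (sub_eq_zero.mp h'))
      have hsum : (∑ γ ∈ R, eval a (Qf γ)) * μ a chi = Delta a * ∑ γ ∈ R, μ a γ := by
        rw [Finset.sum_mul, Finset.mul_sum]
        exact Finset.sum_congr rfl fun γ hγ => (hQf γ hγ).2 a ha
      rw [map_sub, map_mul, eval_DP, map_sum]
      apply mul_left_cancel₀ hneq
      have h1 : (a i - a j) * ((D (a i) (a j) * eval a g - ∑ γ ∈ R, eval a (Qf γ)) * μ a chi) =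
          D (a i) (a j) * (((a i - a j) * eval a g) * μ a chi) -
            (a i - a j) * ((∑ γ ∈ R, eval a (Qf γ)) * μ a chi) := by ring
      rw [h1, ← hg3, hsum, sub_mul, hval, hQα2 a ha, ← mul_sub]
      have h2 : D (a i) (a j) * (Delta a * (μ (a ∘ swap i j) α - μ a α)) =
          Delta a * (D (a i) (a j) * (μ (a ∘ swap i j) α - μ a α)) := by ring
      rw [h2, hcyc']
      ring

theorem exists_poly_abs (hL : 2 ≤ L) (e : ℤ → P → P) (rot : P → P) (chi : P) (len : P → ℕ)
    (hee : ∀ (i : ℤ) π, e i (e i π) = e i π)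
    (hrot : ∀ (i : ℤ) π, rot (e (i + 1) π) = e i (rot π)) (hbij : Function.Bijective rot)
    (hchi : ∀ i : ℕ, i + 1 < L → ∀ π, e i π ≠ chi)
    (htri : ∀ π, (∃ k : ℕ, π = rot^[k] chi) ∨
      ∃ i : Fin L, e ((i : ℕ) : ℤ) π ≠ π ∧
        ∀ γ, e ((i : ℕ) : ℤ) γ = e ((i : ℕ) : ℤ) π → γ ≠ π → len π < len γ)
    (μ : (Fin L → ℝ) → P → ℝ) (hEX : EXg e (Cube L) μ) (hROT : ROTg rot (Cube L) μ)
    (hsum : ∀ a ∈ Cube L, ∑ π, μ a π = 1) :
    ∃ Q : P → MvPolynomial (Fin L) ℝ,
      (∀ π i, (Q π).degreeOf i ≤ L - 1) ∧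
      (∀ a, eval a (Q chi) = Delta a) ∧
      EXg e Set.univ (fun (a : Fin L → ℂ) π => aeval a (Q π)) ∧
      ROTg rot Set.univ (fun (a : Fin L → ℂ) π => aeval a (Q π)) ∧
      ∀ a ∈ Cube L, ∀ π, eval a (Q π) = (∑ π', eval a (Q π')) * μ a π := by
  classical
  have hst := cube_stable L
  have hD : ∀ a ∈ Cube L, ∀ i j : Fin L, i ≠ j → D (a i) (a j) ≠ 0 := fun a ha i j _ =>
    (D_pos (ha.2 i) (ha.2 j)).ne'
  have hDel : ∀ a ∈ Cube L, Delta a ≠ 0 := fun a ha => (Delta_pos ha.2).ne'
  have hratio := ratio e chi hchi (Cube L) hst hD μ hEX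
  choose Q0 hQ01 hQ02 using exists_good hL e rot chi len hee hrot hbij hchi htri μ hEX hROT
  let Q : P → MvPolynomial (Fin L) ℝ := fun π => if π = chi then DeltaP L else Q0 π
  have hQ1 : ∀ π k, degreeOf k (Q π) ≤ L - 1 := by
    intro π k
    by_cases h : π = chi
    · simp only [Q, if_pos h]
      exact degreeOf_DeltaP k
    · simp only [Q, if_neg h]
      exact hQ01 π k
  have hQchi : Q chi = DeltaP L := by simp [Q]
  have hQ2 : ∀ π, ∀ a ∈ Cube L, eval a (Q π) * μ a chi = Delta a * μ a π := by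
    intro π a ha
    by_cases h : π = chi
    · rw [h, hQchi, eval_DeltaP]
    · simp only [Q, if_neg h]
      exact hQ02 π a ha
  -- the normalisation
  have hS : ∀ a ∈ Cube L, (∑ π, eval a (Q π)) * μ a chi = Delta a := by
    intro a ha
    rw [Finset.sum_mul, Finset.sum_congr rfl fun π _ => hQ2 π a ha, ← Finset.mul_sum, hsum a ha,
      mul_one]
  have hμ0 : ∀ a ∈ Cube L, μ a chi ≠ 0 := by
    intro a ha h
    have := hS a ha
    rw [h, mul_zero] at this
    exact hDel a ha this.symm
  have hfin : ∀ a ∈ Cube L, ∀ π, eval a (Q π) = (∑ π', eval a (Q π')) * μ a π := by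
    intro a ha π
    apply mul_right_cancel₀ (hμ0 a ha)
    rw [hQ2 π a ha, ← hS a ha]
    ring
  have hSsymm : ∀ a ∈ Cube L, ∀ σ : Perm (Fin L),
      ∑ π, eval (a ∘ σ) (Q π) = ∑ π, eval a (Q π) := by
    intro a ha σ
    have h1 := hS a ha
    have h2 := hS _ (hst a ha σ)
    have h3 := hratio σ a ha
    have h4 := hμ0 _ (hst a ha σ)
    have h5 := hμ0 a ha
    apply mul_right_cancel₀ (mul_ne_zero h4 h5)
    calc (∑ π, eval (a ∘ σ) (Q π)) * (μ (a ∘ σ) chi * μ a chi)
        = ((∑ π, eval (a ∘ σ) (Q π)) * μ (a ∘ σ) chi) * μ a chi := by ring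
      _ = μ (a ∘ σ) chi * ((∑ π, eval a (Q π)) * μ a chi) := by rw [h2, h1, ← h3]
      _ = _ := by ring
  refine ⟨Q, hQ1, fun a => by rw [hQchi, eval_DeltaP], ?_, ?_, hfin⟩
  · -- exchange relation
    intro a _ i hi α
    set i' : Fin L := ⟨i, by omega⟩ with hi'
    set j' : Fin L := ⟨i + 1, hi⟩ with hj'
    have hpoly : DP i' j' * rename (swap i' j') (Q α) - DP j' i' * Q α -
        (X i' - X j') * ∑ π with e (i : ℤ) π = α, Q π = 0 := by
      apply eq_zero_of_cube
      intro b hb1 hb2
      have hb : b ∈ Cube L := ⟨hb1, hb2⟩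
      have hbs := hst b hb (swap i' j')
      have h1 := hEX b hb i hi α
      rw [← hi', ← hj'] at h1
      rw [map_sub, map_sub, map_mul, map_mul, map_mul, eval_rename, eval_DP, eval_DP, map_sub,
        eval_X, eval_X, map_sum]
      have h2 : eval (b ∘ swap i' j') (Q α) =
          (∑ π', eval b (Q π')) * μ (b ∘ swap i' j') α := by
        rw [hfin _ hbs α, hSsymm b hb]
      have h3 : ∑ π with e (i : ℤ) π = α, eval b (Q π) =
          (∑ π', eval b (Q π')) * ∑ π with e (i : ℤ) π = α, μ b π := by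
        rw [Finset.mul_sum]
        exact Finset.sum_congr rfl fun π _ => hfin b hb π
      rw [h2, h3, hfin b hb α]
      have h4 : D (b i') (b j') * ((∑ π', eval b (Q π')) * μ (b ∘ swap i' j') α) =
          (∑ π', eval b (Q π')) * (D (b i') (b j') * μ (b ∘ swap i' j') α) := by ring
      rw [h4, h1]
      ring
    have h5 := congrArg (aeval a) hpoly
    rw [map_sub, map_sub, map_mul, map_mul, map_mul, aeval_rename, aeval_DP, aeval_DP, map_sub,
      aeval_X, aeval_X, map_sum, map_zero] at h5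
    have h6 := sub_eq_zero.mp h5
    rw [sub_eq_iff_eq_add] at h6
    rw [h6]
    ring
  · intro a _ π
    have hpoly : rename (finRotate L) (Q (rot π)) - Q π = 0 := by
      apply eq_zero_of_cube
      intro b hb1 hb2
      have hb : b ∈ Cube L := ⟨hb1, hb2⟩
      have hbs := hst b hb (finRotate L)
      rw [map_sub, eval_rename, hfin _ hbs, hfin b hb, hSsymm b hb, hROT b hb, sub_self]
    have h5 := congrArg (aeval a) hpoly
    rw [map_sub, aeval_rename, map_zero] at h5
    exact sub_eq_zero.mp h5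

end Main

end Pool.Agent.H38.TA
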